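import Pool.Agent.W2helper5.QD.Stm

/-!
# Project QD: the image of a polygon under a similarity
-/

set_option autoImplicit false

namespace Pool.Agent.W2helper98.QD

open MeasureTheory Set Pool.V11275.Quad Pool.Agent.Helper717.Hull1 Pool.Agent.Helper717.Hull2
open Pool.Agent.W2helper5.QD

/-- a similarity is an isometry equivalence followed by a homothety -/
theorem sim_eq (f : E2 → E2) (r : ℝ) (hr : 0 < r) (hf : ∀ x y, dist (f x) (f y) = r * dist x y) :
    ∃ e : E2 ≃ᵃⁱ[ℝ] E2, ∀ x, f x = r • e x := by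
  have hi : Isometry (fun x => r⁻¹ • f x) := by
    refine Isometry.of_dist_eq fun x y => ?_
    rw [dist_smul₀, hf, Real.norm_eq_abs, abs_of_pos (inv_pos.mpr hr), ← mul_assoc,
      inv_mul_cancel₀ hr.ne', one_mul]
  refine ⟨hi.affineIsometryOfStrictConvexSpace.toAffineIsometryEquiv rfl, fun x => ?_⟩
  show f x = r • (r⁻¹ • f x)
  rw [smul_smul, mul_inv_cancel₀ hr.ne', one_smul]

/-- a polygon is the hull of its vertices -/
theorem hull_ext {m : ℕ} {R : Set E2} (hR : IsGon m R) :
    IsCompact R ∧ Convex ℝ R ∧ R = convexHull ℝ (R.extremePoints ℝ) := by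
  obtain ⟨⟨V, hV, hRV⟩, -, -⟩ := hR
  have h1 : IsCompact R := by
    rw [hRV]
    exact hV.isCompact_convexHull (𝕜 := ℝ)
  have h2 : Convex ℝ R := by
    rw [hRV]
    exact convex_convexHull ℝ V
  have h3 : (R.extremePoints ℝ).Finite := by
    refine hV.subset ?_
    rw [hRV]
    exact extremePoints_convexHull_subset
  refine ⟨h1, h2, ?_⟩
  have h4 := closure_convexHull_extremePoints h1 h2
  rw [(h3.isClosed_convexHull (𝕜 := ℝ)).closure_eq] at h4
  exact h4.symm

theorem HULL : P_HULL := by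
  intro m R f r v hR hr hf hv
  obtain ⟨e, he⟩ := sim_eq f r hr hf
  obtain ⟨h1, h2, h3⟩ := hull_ext hR
  let A : E2 →ᵃ[ℝ] E2 := r • e.toAffineEquiv.toAffineMap
  have hA : (A : E2 → E2) = f := by
    funext x
    rw [he]
    rfl
  have hfc : Continuous f := by
    have h5 : f = fun x => r • e x := funext he
    rw [h5]
    exact e.continuous.const_smul r
  have hfo : IsOpenMap f := by
    have h5 : f = (fun x => r • x) ∘ e := funext he
    rw [h5]
    exact (isOpenMap_smul₀ hr.ne').comp e.toHomeomorph.isOpenMap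
  refine ⟨?_, ?_, ?_, ?_⟩
  · rw [hv]
    conv_lhs => rw [h3]
    rw [← hA]
    exact A.image_convexHull _
  · rw [← hA]
    exact h2.affine_image A
  · exact h1.image hfc
  · obtain ⟨x, hx⟩ := hR.2.2
    exact ⟨f x, hfo.image_interior_subset R ⟨x, hx, rfl⟩⟩

end Pool.Agent.W2helper98.QD
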